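import Pool.Agent.L0h33.MT.Diag

/-!
# A Turing complete set for exponential time which is not Turing mitotic

Not every `≤_T^P`-complete set for `EXP` is `≤_T^P`-mitotic. We construct a complete set `A` such
that for every set `S` in `P`, `A` is not `≤_T^P`-reducible to both `A ∩ S` and `A ∩ Sᶜ`.

Idea. Let `n` range over the (very sparse) values of a tower function. The set `A` contains the
bits of a key `w` of length `4 n`, at `4 n` places given by tally strings. A universal set for
exponential time is coded into `A`, on the lengths from `n` to the next value of the tower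
function, at places which contain the key. So `A` is complete: read the key first, and then use it
to ask about the universal set. For a set `S` in `P` at least half of the `4 n` places are in `S`,
or at least half of the places are in `Sᶜ`; use `2 n` bits at these places for the key, and set the
others to `0`. An algorithm which recovers the key from the other part of `A` only cannot ask about
a place which contains the key, except by guessing it. So we simulate the algorithm with the answer
`no` to all these questions, and choose the key different from the result of the simulation, and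
from all the keys that were asked. This takes exponential time.
-/

set_option autoImplicit false

namespace Pool.Agent.Results.MP_6b6c7c_lc.NotMitotic

open Pool.Agent.NPC (InP)
open Pool.Agent.Y600.FB (chi)
open Pool.Agent.H620R2.Gauge (IsP)
open Pool.Agent.H820R2.SS (InEXPTIME)

/-- Polynomial-time Turing reducibility `A ≤_T^P B`: the set `A` is decided by a polynomial-time
oracle algorithm whose oracle is (the characteristic function of) `B`. -/
def TuringReduces (A B : Set (List Bool)) : Prop := IsP (chi B) A

/-- `A ≡_T^P B`. -/
def TuringEquiv (A B : Set (List Bool)) : Prop := TuringReduces A B ∧ TuringReduces B A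

/-- `A` is `≤_T^P`-complete for `EXP`. -/
def TuringCompleteEXP (A : Set (List Bool)) : Prop :=
  InEXPTIME A ∧ ∀ B, InEXPTIME B → TuringReduces B A

/-- `A` is `≤_T^P`-mitotic: there is `S` in `P` with `A ≡_T^P A ∩ S` and `A ≡_T^P A ∩ Sᶜ`. -/
def TuringMitotic (A : Set (List Bool)) : Prop :=
  ∃ S, InP S ∧ TuringEquiv A (A ∩ S) ∧ TuringEquiv A (A ∩ Sᶜ)

/-- There is a `≤_T^P`-complete set for `EXP` which is not `≤_T^P`-mitotic; moreover for no set `S`
in `P` the set is reducible to both of its parts. -/
theorem result : ∃ A, TuringCompleteEXP A ∧ ¬ TuringMitotic A ∧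
    ∀ S, InP S → ¬ (TuringReduces A (A ∩ S) ∧ TuringReduces A (A ∩ Sᶜ)) := by
  have key : ∀ S, InP S → ¬ (TuringReduces Pool.Agent.L0h33.MT.AA (Pool.Agent.L0h33.MT.AA ∩ S) ∧
      TuringReduces Pool.Agent.L0h33.MT.AA (Pool.Agent.L0h33.MT.AA ∩ Sᶜ)) := by
    rintro S hS ⟨h1, h0⟩
    refine Pool.Agent.L0h33.MT.not_split hS ?_ h1
    rwa [Set.diff_eq]
  refine ⟨Pool.Agent.L0h33.MT.AA, ⟨Pool.Agent.L0h33.MT.AA_exp, fun B hB =>
    Pool.Agent.L0h33.MT.hard hB⟩, ?_, key⟩
  rintro ⟨S, hS, h1, h3⟩
  exact key S hS ⟨h1.1, h3.1⟩

end Pool.Agent.Results.MP_6b6c7c_lc.NotMitotic
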